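import Pool.Agent.helper33.PG.Spec

set_option autoImplicit false

namespace Pool.Agent.PG

open Polynomial Finset

theorem DET_deg (f : ℕ → ℤ) (m : ℕ) :
    (∑ j ∈ range (m + 1), C (f j) * X ^ j : ℤ[X]).natDegree ≤ m := by
  refine natDegree_sum_le_of_forall_le _ _ fun j hj => ?_
  rw [Finset.mem_range] at hj
  exact (natDegree_C_mul_X_pow_le _ _).trans (by omega)

theorem DET_coeff (f : ℕ → ℤ) (m i : ℕ) (hi : i ≤ m) :
    (∑ j ∈ range (m + 1), C (f j) * X ^ j : ℤ[X]).coeff i = f i := by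
  rw [finsetSum_coeff]
  simp only [coeff_C_mul_X_pow]
  rw [Finset.sum_ite_eq, if_pos (Finset.mem_range.2 (by omega))]

theorem DET (hDEC : DEC_stmt) (hLDA : LDA_stmt) (hTOP : TOP_stmt) : DET_stmt := by
  intro q a b hb ha
  have hab : a + 1 + (b - 1) + 1 = a + b + 1 := by omega
  have h1 := hDEC q a b (by omega)
  have h2 := hDEC q (a + 1) (b - 1) ha
  have s1 : S q a b = (1 - X) ^ (a + b + 1) * G q a b := rfl
  have s2 : S q (a + 1) (b - 1) = (1 - X) ^ (a + b + 1) * G q (a + 1) (b - 1) := by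
    rw [S, hab]
  have hpow : ((1 : ℤ[X]) - X) ^ (a + b + 1) = (-1) ^ (a + b + 1) * (X - 1) ^ (a + b + 1) := by
    rw [← mul_pow]
    congr 1
    ring
  set D := A q a b * B q (a + 1) (b - 1) - A q (a + 1) (b - 1) * B q a b with hD
  set H := (-1) ^ (a + b + 1) * (G q a b * B q (a + 1) (b - 1) - G q (a + 1) (b - 1) * B q a b)
    with hH
  have hDH : D = (X - 1) ^ (a + b + 1) * H := by
    have e1 : D = S q a b * B q (a + 1) (b - 1) - S q (a + 1) (b - 1) * B q a b := by
      rw [h1, h2, hD]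
      ring
    rw [e1, s1, s2, hpow, hH]
    ring
  have dA1 : (A q a b).natDegree ≤ a := DET_deg _ a
  have dB1 : (B q a b).natDegree ≤ b := DET_deg (fun l => (S q a b).coeff (q + l)) b
  have dA2 : (A q (a + 1) (b - 1)).natDegree ≤ a + 1 := DET_deg _ (a + 1)
  have dB2 : (B q (a + 1) (b - 1)).natDegree ≤ b - 1 :=
    DET_deg (fun l => (S q (a + 1) (b - 1)).coeff (q + l)) (b - 1)
  have cA2 : (A q (a + 1) (b - 1)).coeff (a + 1) = (S q (a + 1) (b - 1)).coeff (a + 1) :=
    DET_coeff _ (a + 1) (a + 1) le_rfl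
  have cB1 : (B q a b).coeff b = (S q a b).coeff (q + b) :=
    DET_coeff (fun l => (S q a b).coeff (q + l)) b b le_rfl
  have dD : D.natDegree ≤ a + b + 1 := by
    rw [hD]
    refine (natDegree_sub_le _ _).trans (max_le ?_ ?_)
    · exact (natDegree_mul_le.trans (add_le_add dA1 dB2)).trans (by omega)
    · exact (natDegree_mul_le.trans (add_le_add dA2 dB1)).trans (by omega)
  have cD : D.coeff (a + b + 1) ≠ 0 := by
    have e1 : (A q a b * B q (a + 1) (b - 1)).coeff (a + b + 1) = 0 :=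
      coeff_eq_zero_of_natDegree_lt
        (lt_of_le_of_lt (natDegree_mul_le.trans (add_le_add dA1 dB2)) (by omega))
    have e2 : (A q (a + 1) (b - 1) * B q a b).coeff (a + b + 1) =
        (S q (a + 1) (b - 1)).coeff (a + 1) * (S q a b).coeff (q + b) := by
      rw [show a + b + 1 = a + 1 + b by omega, coeff_mul_add_eq_of_natDegree_le dA2 dB1, cA2, cB1]
    rw [hD, coeff_sub, e1, e2, zero_sub, neg_ne_zero]
    refine mul_ne_zero ?_ (hTOP q a b (by omega)).2
    rw [hLDA q (a + 1) (b - 1) ha]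
    refine mul_ne_zero (pow_ne_zero _ (by norm_num)) ?_
    exact_mod_cast (Nat.choose_pos (by omega)).ne'
  have hD0 : D ≠ 0 := by
    intro h
    rw [h, coeff_zero] at cD
    exact cD rfl
  have hH0 : H ≠ 0 := by
    intro h
    rw [hDH, h, mul_zero] at hD0
    exact hD0 rfl
  have hmon : ((X - 1 : ℤ[X]) ^ (a + b + 1)).Monic := by
    have h3 : (X - C (1 : ℤ)).Monic := monic_X_sub_C 1
    rw [C_1] at h3
    exact h3.pow _
  have hnd : ((X - 1 : ℤ[X]) ^ (a + b + 1)).natDegree = a + b + 1 := by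
    have h3 : (X - C (1 : ℤ)).natDegree = 1 := natDegree_X_sub_C 1
    rw [C_1] at h3
    rw [natDegree_pow, h3, mul_one]
  have hHd : H.natDegree = 0 := by
    have h3 : D.natDegree = a + b + 1 + H.natDegree := by
      rw [hDH, hmon.natDegree_mul' hH0, hnd]
    omega
  obtain ⟨c, hc⟩ : ∃ c : ℤ, H = C c := ⟨H.coeff 0, eq_C_of_natDegree_eq_zero hHd⟩
  refine ⟨c, ?_, ?_⟩
  · rintro rfl
    exact hH0 (by rw [hc, C_0])
  · rw [hDH, hc, mul_comm]

end Pool.Agent.PG
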